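import Pool.Agent.U762.RP.Stm2

set_option autoImplicit false

/-!
# Project RP, package WCm: worst case bound, expanding case
-/

namespace Pool.Agent.U941.RP.WCm

open Finset
open Pool.Agent.U762.RP

theorem T_real {d : ℕ} {m r : ℤ → ℤ} (h : Rel d m r) (x : ℤ) :
    (T d m r x : ℝ) = ((m (x % d) : ℝ) * x - r (x % d)) / d := by
  have hd : (0 : ℤ) < d := by
    have := h.two_le
    omega
  have h0 : 0 ≤ x % d := Int.emod_nonneg _ hd.ne'
  have h1 : x % d < d := Int.emod_lt_of_pos _ hd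
  have hdv : (d : ℤ) ∣ m (x % d) * x - r (x % d) := by
    have e : m (x % d) * x - r (x % d) =
        (m (x % d) * (x % d) - r (x % d)) + d * (m (x % d) * (x / d)) := by
      have := Int.emod_add_mul_ediv x d
      nth_rewrite 2 [← this]
      ring
    rw [e]
    exact dvd_add (h.dvd _ h0 h1) (dvd_mul_right _ _)
  unfold T
  rw [Int.cast_div hdv (by exact_mod_cast hd.ne')]
  push_cast
  ring

theorem low {d : ℕ} {m r : ℤ → ℤ} (h : Rel d m r) {η : ℝ} (hη : 0 < η) {B : ℕ} {x : ℤ}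
    (hx : ∑ j ∈ range d, (|(r (j : ℤ) : ℝ)| + B * d) / η ≤ |(x : ℝ)|) {u : ℤ} (hu : |(u : ℝ)| ≤ B) :
    facm d m η (x % d).toNat * |(x : ℝ)| ≤ |((T d m r x + u : ℤ) : ℝ)| := by
  have hd : (0 : ℤ) < d := by
    have := h.two_le
    omega
  have hdR : (0 : ℝ) < d := by exact_mod_cast hd
  have h0 : 0 ≤ x % d := Int.emod_nonneg _ hd.ne'
  have h1 : x % d < d := Int.emod_lt_of_pos _ hd
  have hj : (((x % d).toNat : ℕ) : ℤ) = x % d := Int.toNat_of_nonneg h0
  have hjr : (x % d).toNat ∈ range d := by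
    rw [mem_range]
    omega
  have hm : (1 : ℝ) ≤ m (x % d) := by
    have := h.pos _ h0 h1
    exact_mod_cast this
  have hle : (|(r (x % d) : ℝ)| + B * d) / η ≤ |(x : ℝ)| := by
    refine le_trans ?_ hx
    have := Finset.single_le_sum (f := fun j : ℕ => (|(r (j : ℤ) : ℝ)| + B * d) / η)
      (fun j _ => by positivity) hjr
    simpa only [hj] using this
  rw [div_le_iff₀ hη] at hle
  unfold facm
  rw [hj]
  push_cast
  rw [T_real h x]
  have e1 : |((m (x % d) : ℝ) * x - r (x % d)) / d| - |(u : ℝ)| ≤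
      |((m (x % d) : ℝ) * x - r (x % d)) / d + u| := by
    have := abs_sub_abs_le_abs_sub (((m (x % d) : ℝ) * x - r (x % d)) / d) (-(u : ℝ))
    rw [abs_neg, sub_neg_eq_add] at this
    exact this
  refine le_trans ?_ e1
  have e2 : (m (x % d) : ℝ) * |(x : ℝ)| - |(r (x % d) : ℝ)| ≤ |(m (x % d) : ℝ) * x - r (x % d)| := by
    have := abs_sub_abs_le_abs_sub ((m (x % d) : ℝ) * x) (r (x % d) : ℝ)
    rw [abs_mul, abs_of_pos (by linarith : (0 : ℝ) < m (x % d))] at this
    exact this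
  rw [abs_div, abs_of_pos hdR]
  have e3 : ((m (x % d) : ℝ) * |(x : ℝ)| - |(r (x % d) : ℝ)|) / d ≤
      |(m (x % d) : ℝ) * x - r (x % d)| / d := by gcongr
  have e4 : (m (x % d) : ℝ) / d * (1 - η) * |(x : ℝ)| ≤
      ((m (x % d) : ℝ) * |(x : ℝ)| - |(r (x % d) : ℝ)|) / d - B := by
    rw [div_mul_eq_mul_div, div_mul_eq_mul_div, le_sub_iff_add_le, div_add' _ _ _ hdR.ne']
    refine div_le_div_of_nonneg_right ?_ hdR.le
    have e5 : |(x : ℝ)| * η ≤ (m (x % d) : ℝ) * (|(x : ℝ)| * η) :=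
      le_mul_of_one_le_left (by positivity) hm
    nlinarith
  linarith

theorem t_WCm (hA : S_AVGm) : S_WCm := by
  intro d m r hrel θ η hθ hθ1 hη hη2 B K hK
  obtain ⟨M₁, hM₁, hA1⟩ := hA d m r hrel θ η hθ hθ1 hη hη2 B
  have hd2 : (2 : ℝ) ≤ d := by exact_mod_cast hrel.two_le
  have hd0 : (0 : ℝ) < d := by linarith
  have hdZ : (0 : ℤ) < d := by exact_mod_cast hd0
  refine ⟨max ((2 * d : ℝ) ^ (K + 1) * M₁) (∑ j ∈ range d, (|(r (j : ℤ) : ℝ)| + B * d) / η),
    ?_, ?_⟩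
  · refine le_max_of_le_left ?_
    have : (1 : ℝ) ≤ (2 * d : ℝ) ^ (K + 1) := one_le_pow₀ (by linarith)
    nlinarith
  intro M hM w hw hw1 ε R hε hε1 hR hwε
  have hMa : (2 * d : ℝ) ^ (K + 1) * M₁ ≤ M := le_trans (le_max_left _ _) hM
  have hMb : (∑ j ∈ range d, (|(r (j : ℤ) : ℝ)| + B * d) / η) ≤ M := le_trans (le_max_right _ _) hM
  have hM0 : 0 < M := by
    have : 0 < (2 * d : ℝ) ^ (K + 1) * M₁ := by positivity
    linarith
  set ρ : ℝ := (∑ j ∈ range d, facm d m η j ^ (-θ)) / d with hρ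
  have hfac : ∀ j ∈ range d, 1 / (2 * (d : ℝ)) ≤ facm d m η j := by
    intro j hj
    unfold facm
    have hm : (1 : ℝ) ≤ m (j : ℤ) := by
      have := hrel.pos (j : ℤ) (by positivity) (by rw [mem_range] at hj; exact_mod_cast hj)
      exact_mod_cast this
    have h1 : (1 : ℝ) / 2 ≤ 1 - η := by linarith
    calc 1 / (2 * (d : ℝ)) = 1 / d * (1 / 2) := by ring
      _ ≤ (m (j : ℤ) : ℝ) / d * (1 - η) := by gcongr
  have hfac0 : ∀ j ∈ range d, 0 < facm d m η j := fun j hj =>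
    lt_of_lt_of_le (by positivity) (hfac j hj)
  have hρ0 : 0 ≤ ρ := by
    rw [hρ]
    refine div_nonneg (Finset.sum_nonneg fun j hj => ?_) hd0.le
    exact Real.rpow_nonneg (hfac0 j hj).le _
  have hR0 : 0 ≤ R := by
    have h0 : 0 ∈ range d := by
      rw [mem_range]
      have := hrel.two_le
      omega
    exact le_trans (Real.rpow_nonneg (hfac0 0 h0).le _) (hR 0 h0)
  have hg : ∀ k, 0 ≤ g ε R ρ k := by
    intro k
    induction k with
    | zero => simp [g]
    | succ k ih =>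
      unfold g
      have : 0 ≤ 1 - ε := by linarith
      positivity
  have hVle : ∀ (y : ℤ) (z : ℝ), 0 < z → z ≤ |(y : ℝ)| → Vm M θ y ≤ z ^ (-θ) := by
    intro y z hz hzy
    unfold Vm
    split_ifs with h
    · positivity
    · exact Real.rpow_le_rpow_of_nonpos hz hzy (by linarith)
  intro k
  induction k with
  | zero =>
    intro _ x
    simp [g]
  | succ k ih =>
    intro hk x
    have hkK : k ≤ K := by omega
    have ih' := ih (by omega)
    rw [Function.iterate_succ_apply']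
    set F : ℤ → ℝ := (Q d m r w B M)^[k] (Vm M θ) with hF
    by_cases hx : |(x : ℝ)| < M
    · unfold Q Vm
      rw [if_pos hx, if_pos hx, mul_zero]
    rw [show Q d m r w B M F x = ∑ u ∈ Icc (-(B : ℤ)) B, w u * F (T d m r x + u) by
      unfold Q; rw [if_neg hx]]
    rw [show Vm M θ x = |(x : ℝ)| ^ (-θ) by unfold Vm; rw [if_neg hx]]
    have hx' : M ≤ |(x : ℝ)| := not_lt.1 hx
    have h0 : 0 ≤ x % d := Int.emod_nonneg _ hdZ.ne'
    have h1 : x % d < d := Int.emod_lt_of_pos _ hdZ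
    have hj : (x % d).toNat ∈ range d := by
      rw [mem_range]
      omega
    set a : ℝ := facm d m η (x % d).toNat with ha
    have ha0 : 0 < a := hfac0 _ hj
    have hxpos : 0 < |(x : ℝ)| := lt_of_lt_of_le hM0 hx'
    set z : ℝ := a * |(x : ℝ)| with hz
    have hz0 : 0 < z := by positivity
    have hzlow : ∀ u : ℤ, |(u : ℝ)| ≤ B → z ≤ |((T d m r x + u : ℤ) : ℝ)| := fun u hu =>
      low hrel hη (le_trans hMb hx') hu
    have hzK : (2 * d : ℝ) ^ K * M₁ ≤ z := by
      have e1 : (2 * d : ℝ) ^ (K + 1) * M₁ ≤ |(x : ℝ)| := le_trans hMa hx'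
      have e2 : 1 / (2 * (d : ℝ)) ≤ a := hfac _ hj
      calc (2 * d : ℝ) ^ K * M₁ = 1 / (2 * (d : ℝ)) * ((2 * d : ℝ) ^ (K + 1) * M₁) := by
            rw [pow_succ]
            field_simp
        _ ≤ a * |(x : ℝ)| := by
            gcongr
    have hzk : (2 * d : ℝ) ^ k * M₁ ≤ z := by
      refine le_trans ?_ hzK
      have : (2 * d : ℝ) ^ k ≤ (2 * d : ℝ) ^ K := pow_le_pow_right₀ (by linarith) hkK
      gcongr
    -- the pointwise bound
    have hFle : ∀ u ∈ Icc (-(B : ℤ)) B, F (T d m r x + u) ≤ g ε R ρ k * z ^ (-θ) := by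
      intro u hu
      rw [mem_Icc] at hu
      have hu' : |(u : ℝ)| ≤ B := by
        rw [abs_le]
        constructor
        · exact_mod_cast hu.1
        · exact_mod_cast hu.2
      refine le_trans (ih' _) ?_
      exact mul_le_mul_of_nonneg_left (hVle _ z hz0 (hzlow u hu')) (hg k)
    -- the average
    have hdK : (0 : ℝ) < (d : ℝ) ^ K := by positivity
    have hBK : ∀ u : ℕ, u < d ^ K → |(((u : ℕ) : ℤ) : ℝ)| ≤ B := by
      intro u hu
      have h2 : (u : ℝ) ≤ B := by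
        exact_mod_cast (hu.le.trans hK)
      rw [Int.cast_natCast, abs_of_nonneg (by positivity)]
      exact h2
    have havg : ∑ u ∈ range (d ^ K), F (T d m r x + 1 * (u : ℤ)) ≤
        (d : ℝ) ^ K * ρ ^ k * z ^ (-θ) := by
      refine hA1 M w hw hw1 k K hkK 1 (T d m r x) isCoprime_one_left z hzk ?_
      intro u hu
      rw [one_mul]
      exact hzlow _ (hBK u hu)
    have hsplit : ∑ u ∈ Icc (-(B : ℤ)) B, w u * F (T d m r x + u) =
        (ε / (d : ℝ) ^ K) * ∑ u ∈ Ico (0 : ℤ) ((d : ℤ) ^ K), F (T d m r x + u) +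
        ∑ u ∈ Icc (-(B : ℤ)) B, (w u - if u ∈ Ico (0 : ℤ) ((d : ℤ) ^ K) then ε / (d : ℝ) ^ K else 0) *
          F (T d m r x + u) := by
      have hsub : Ico (0 : ℤ) ((d : ℤ) ^ K) ⊆ Icc (-(B : ℤ)) B := by
        intro u hu
        rw [mem_Ico] at hu
        rw [mem_Icc]
        have hKZ : (d : ℤ) ^ K ≤ B := by exact_mod_cast hK
        constructor
        · linarith [hu.1, (Int.natCast_nonneg B)]
        · linarith [hu.2]
      have e : (ε / (d : ℝ) ^ K) * ∑ u ∈ Ico (0 : ℤ) ((d : ℤ) ^ K), F (T d m r x + u) =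
          ∑ u ∈ Icc (-(B : ℤ)) B, (if u ∈ Ico (0 : ℤ) ((d : ℤ) ^ K) then ε / (d : ℝ) ^ K else 0) *
          F (T d m r x + u) := by
        rw [mul_sum, ← Finset.sum_subset hsub]
        · refine Finset.sum_congr rfl fun u hu => ?_
          rw [if_pos hu]
        · intro u _ hu
          rw [if_neg hu, zero_mul]
      rw [e, ← Finset.sum_add_distrib]
      refine Finset.sum_congr rfl fun u _ => ?_
      ring
    have hIco : ∑ u ∈ Ico (0 : ℤ) ((d : ℤ) ^ K), F (T d m r x + u) =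
        ∑ u ∈ range (d ^ K), F (T d m r x + 1 * (u : ℤ)) := by
      symm
      refine Finset.sum_bij (fun (u : ℕ) _ => (u : ℤ)) ?_ ?_ ?_ ?_
      · intro u hu
        rw [mem_range] at hu
        rw [mem_Ico]
        refine ⟨by positivity, by exact_mod_cast hu⟩
      · intro u _ v _ huv
        exact_mod_cast huv
      · intro u hu
        rw [mem_Ico] at hu
        refine ⟨u.toNat, ?_, Int.toNat_of_nonneg hu.1⟩
        rw [mem_range]
        have := hu.2
        zify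
        rw [Int.toNat_of_nonneg hu.1]
        exact this
      · intro u _
        rw [one_mul]
    have hmass : ∑ u ∈ Icc (-(B : ℤ)) B,
        (w u - if u ∈ Ico (0 : ℤ) ((d : ℤ) ^ K) then ε / (d : ℝ) ^ K else 0) ≤ 1 - ε := by
      rw [Finset.sum_sub_distrib]
      have hsub : Ico (0 : ℤ) ((d : ℤ) ^ K) ⊆ Icc (-(B : ℤ)) B := by
        intro u hu
        rw [mem_Ico] at hu
        rw [mem_Icc]
        have hKZ : (d : ℤ) ^ K ≤ B := by exact_mod_cast hK
        constructor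
        · linarith [hu.1, (Int.natCast_nonneg B)]
        · linarith [hu.2]
      have e : ∑ u ∈ Icc (-(B : ℤ)) B, (if u ∈ Ico (0 : ℤ) ((d : ℤ) ^ K) then ε / (d : ℝ) ^ K else 0) = ε := by
        rw [← Finset.sum_subset hsub (f := fun u => if u ∈ Ico (0 : ℤ) ((d : ℤ) ^ K) then ε / (d : ℝ) ^ K else 0)]
        · rw [Finset.sum_congr rfl (fun u hu => if_pos hu), Finset.sum_const, Int.card_Ico,
            nsmul_eq_mul]
          have : (((d : ℤ) ^ K - 0).toNat : ℝ) = (d : ℝ) ^ K := by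
            rw [sub_zero]
            have h2 : ((((d : ℤ) ^ K).toNat : ℕ) : ℤ) = (d : ℤ) ^ K := Int.toNat_of_nonneg (by positivity)
            have h3 : ((((d : ℤ) ^ K).toNat : ℕ) : ℝ) = (((((d : ℤ) ^ K).toNat : ℕ) : ℤ) : ℝ) := by
              norm_cast
            rw [h3, h2]
            push_cast
            rfl
          rw [this]
          field_simp
        · intro u _ hu
          exact if_neg hu
      rw [e]
      linarith
    have hw' : ∀ u ∈ Icc (-(B : ℤ)) B,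
        0 ≤ w u - if u ∈ Ico (0 : ℤ) ((d : ℤ) ^ K) then ε / (d : ℝ) ^ K else 0 := by
      intro u _
      split_ifs with h
      · rw [mem_Ico] at h
        linarith [hwε u h.1 h.2]
      · rw [sub_zero]
        exact hw u
    have hzθ : 0 ≤ z ^ (-θ) := Real.rpow_nonneg hz0.le _
    have hsecond : ∑ u ∈ Icc (-(B : ℤ)) B,
        (w u - if u ∈ Ico (0 : ℤ) ((d : ℤ) ^ K) then ε / (d : ℝ) ^ K else 0) * F (T d m r x + u) ≤
        (1 - ε) * (g ε R ρ k * z ^ (-θ)) := by
      calc _ ≤ ∑ u ∈ Icc (-(B : ℤ)) B,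
          (w u - if u ∈ Ico (0 : ℤ) ((d : ℤ) ^ K) then ε / (d : ℝ) ^ K else 0) *
            (g ε R ρ k * z ^ (-θ)) :=
            Finset.sum_le_sum fun u hu => mul_le_mul_of_nonneg_left (hFle u hu) (hw' u hu)
        _ = (∑ u ∈ Icc (-(B : ℤ)) B,
          (w u - if u ∈ Ico (0 : ℤ) ((d : ℤ) ^ K) then ε / (d : ℝ) ^ K else 0)) *
            (g ε R ρ k * z ^ (-θ)) := by rw [Finset.sum_mul]
        _ ≤ _ := mul_le_mul_of_nonneg_right hmass (mul_nonneg (hg k) hzθ)
    have hfirst : (ε / (d : ℝ) ^ K) * ∑ u ∈ Ico (0 : ℤ) ((d : ℤ) ^ K), F (T d m r x + u) ≤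
        ε * ρ ^ k * z ^ (-θ) := by
      rw [hIco]
      calc _ ≤ (ε / (d : ℝ) ^ K) * ((d : ℝ) ^ K * ρ ^ k * z ^ (-θ)) :=
            mul_le_mul_of_nonneg_left havg (by positivity)
        _ = _ := by field_simp
    have hzR : z ^ (-θ) ≤ R * |(x : ℝ)| ^ (-θ) := by
      rw [hz, Real.mul_rpow ha0.le hxpos.le]
      exact mul_le_mul_of_nonneg_right (hR _ hj) (Real.rpow_nonneg hxpos.le _)
    rw [hsplit]
    have hcoef : 0 ≤ ε * ρ ^ k + (1 - ε) * g ε R ρ k := by
      have h2 : 0 ≤ 1 - ε := by linarith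
      have h3 := hg k
      positivity
    calc _ ≤ ε * ρ ^ k * z ^ (-θ) + (1 - ε) * (g ε R ρ k * z ^ (-θ)) := add_le_add hfirst hsecond
      _ = (ε * ρ ^ k + (1 - ε) * g ε R ρ k) * z ^ (-θ) := by ring
      _ ≤ (ε * ρ ^ k + (1 - ε) * g ε R ρ k) * (R * |(x : ℝ)| ^ (-θ)) :=
          mul_le_mul_of_nonneg_left hzR hcoef
      _ = g ε R ρ (k + 1) * |(x : ℝ)| ^ (-θ) := by
          show _ = R * (ε * ρ ^ k + (1 - ε) * g ε R ρ k) * _
          ring

end Pool.Agent.U941.RP.WCm
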